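import Mathlib
import Pool.Agent.H812R3.CantorChar

set_option autoImplicit false

/-!
# Countable Borel equivalence relations and realizations by continuous actions
-/

open Set Topology TopologicalSpace

namespace Pool.Agent.Q221.CE

/-- Countable Borel equivalence relations (CBER). -/
structure CBER {X : Type} [MeasurableSpace X] (E : Setoid X) : Prop where
  borel : MeasurableSet {p : X × X | E p.1 p.2}
  countable : ∀ x, {y | E x y}.Countable

/-- `E` is, up to a Borel bijection `f : X → K`, the orbit equivalence relation of a continuous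
action of a countable group on the topological space `K`. -/
def Realizes {X : Type} [MeasurableSpace X] (E : Setoid X) (K : Type) [TopologicalSpace K] : Prop :=
  ∃ (Γ : Type) (_ : Group Γ) (_ : Countable Γ) (_ : MulAction Γ K) (_ : ContinuousConstSMul Γ K)
    (f : X → K), @Measurable X K _ (borel K) f ∧ Function.Bijective f ∧
      ∀ x y, E x y ↔ ∃ γ : Γ, γ • f x = f y

/-- `E` admits a compact action realization. -/
def CompactRealization {X : Type} [MeasurableSpace X] (E : Setoid X) : Prop :=
  ∃ (K : Type) (_ : TopologicalSpace K) (_ : CompactSpace K) (_ : MetrizableSpace K), Realizes E K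

/-- the points whose class has at least `n` elements -/
def Big {X : Type} (E : Setoid X) (n : ℕ) : Set X := {x | (n : ℕ∞) ≤ {y | E x y}.encard}

/-! ### Nonempty open subsets of the Cantor space are uncountable -/

theorem open_uncountable {U : Set (ℕ → Bool)} (hU : IsOpen U) (hne : U.Nonempty) :
    ¬ U.Countable := by
  obtain ⟨z, hz⟩ := hne
  rw [isOpen_pi_iff] at hU
  obtain ⟨I, u, hu, hI⟩ := hU z hz
  obtain ⟨N, hN⟩ : ∃ N : ℕ, ∀ i ∈ I, i < N := ⟨I.sup id + 1, fun i hi =>
    Nat.lt_succ_of_le (Finset.le_sup (f := id) hi)⟩
  let g : (ℕ → Bool) → (ℕ → Bool) := fun w i => if i < N then z i else w (i - N)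
  have hg : Function.Injective g := by
    intro w w' h
    funext i
    have := congrFun h (i + N)
    simpa [g] using this
  intro hc
  have h1 : (univ : Set (ℕ → Bool)).Countable := by
    have h2 : g '' univ ⊆ U := by
      rintro _ ⟨w, -, rfl⟩
      apply hI
      intro i hi
      simp only [g, hN i (Finset.mem_coe.1 hi), if_true]
      exact (hu i (Finset.mem_coe.1 hi)).2
    exact Set.countable_of_injective_of_countable_image hg.injOn (hc.mono h2)
  have h3 : Countable (ℕ → Bool) := Set.countable_univ_iff.1 h1
  have h4 : Countable (Set ℕ) := by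
    classical
    have : Function.Injective (fun s : Set ℕ => fun i => decide (i ∈ s)) := by
      intro s t h
      ext i
      have := congrFun h i
      simpa using this
    exact this.countable
  obtain ⟨e, he⟩ := exists_injective_nat (Set ℕ)
  exact Function.cantor_injective e he

/-- In a realization on the Cantor space the set of the points with a class of at least `n` elements
is empty or uncountable. -/
theorem big_uncountable {X : Type} [MeasurableSpace X] {E : Setoid X}
    (h : Realizes E (ℕ → Bool)) (n : ℕ) (hne : (Big E n).Nonempty) : ¬ (Big E n).Countable := by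
  classical
  obtain ⟨Γ, _, _, _, _, f, -, hf, hE⟩ := h
  obtain ⟨x, hx⟩ := hne
  obtain ⟨s, hs, hsn⟩ := Set.exists_subset_encard_eq (show (n : ℕ∞) ≤ {y | E x y}.encard from hx)
  have hsf : s.Finite := Set.finite_of_encard_eq_coe hsn
  have hγ : ∀ y : s, ∃ γ : Γ, γ • f x = f y.1 := fun y => (hE x y.1).1 (hs y.2)
  choose γ hγ using hγ
  let U : Set (ℕ → Bool) := ⋂ p ∈ {p : s × s | p.1 ≠ p.2}, {z | γ p.1 • z ≠ γ p.2 • z}
  have : Finite s := hsf
  have hU : IsOpen U := by
    apply Set.Finite.isOpen_biInter (Set.toFinite _)
    intro p _
    exact isOpen_ne_fun (continuous_const_smul _) (continuous_const_smul _)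
  have hxU : f x ∈ U := by
    simp only [U, mem_iInter, mem_setOf_eq]
    intro p hp
    rw [hγ, hγ]
    exact fun h => hp (Subtype.ext (hf.1 h))
  have hUB : f ⁻¹' U ⊆ Big E n := by
    intro w hw
    have hw' : ∀ p : s × s, p.1 ≠ p.2 → γ p.1 • f w ≠ γ p.2 • f w := by
      intro p hp
      have := hw
      simp only [U, mem_preimage, mem_iInter, mem_setOf_eq] at this
      exact this p hp
    have hv : ∀ y : s, ∃ v, f v = γ y • f w := fun y => hf.2 _
    choose v hv using hv
    have hvi : Function.Injective v := by
      intro y y' h
      by_contra hne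
      apply hw' (y, y') hne
      rw [← hv, ← hv, h]
    have h1 : range v ⊆ {y | E w y} := by
      rintro _ ⟨y, rfl⟩
      exact (hE w _).2 ⟨γ y, (hv y).symm⟩
    have h2 : (range v).encard = s.encard := by
      rw [← Set.image_univ, hvi.encard_image, Set.encard_univ]
      rfl
    show (n : ℕ∞) ≤ _
    rw [← hsn, ← h2]
    exact Set.encard_le_encard h1
  intro hc
  apply open_uncountable hU ⟨f x, hxU⟩
  have := (hc.mono hUB).image f
  rwa [Set.image_preimage_eq _ hf.2] at this

end Pool.Agent.Q221.CE
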