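import Pool.Agent.Q221.CBER.Defs

set_option autoImplicit false

/-!
# A relation with one class of two elements
-/

open Set Topology TopologicalSpace

namespace Pool.Agent.Q221.CE

/-- a Cantor set together with two isolated points -/
def KK : Type := {z : ℕ → Bool // z 0 = true ∨ ∀ i, 2 ≤ i → z i = false}

instance : TopologicalSpace KK := inferInstanceAs (TopologicalSpace {z : ℕ → Bool //
  z 0 = true ∨ ∀ i, 2 ≤ i → z i = false})

instance : MeasurableSpace KK := inferInstanceAs (MeasurableSpace {z : ℕ → Bool //
  z 0 = true ∨ ∀ i, 2 ≤ i → z i = false})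

instance : BorelSpace KK := inferInstanceAs (BorelSpace {z : ℕ → Bool //
  z 0 = true ∨ ∀ i, 2 ≤ i → z i = false})

instance : MetrizableSpace KK := IsEmbedding.subtypeVal.metrizableSpace

theorem isClosed_KK : IsClosed {z : ℕ → Bool | z 0 = true ∨ ∀ i, 2 ≤ i → z i = false} := by
  have h1 : IsClosed {z : ℕ → Bool | z 0 = true} :=
    isClosed_eq (continuous_apply 0) continuous_const
  have h2 : IsClosed {z : ℕ → Bool | ∀ i, 2 ≤ i → z i = false} := by
    have : {z : ℕ → Bool | ∀ i, 2 ≤ i → z i = false} =
        ⋂ i, ⋂ (_ : 2 ≤ i), {z : ℕ → Bool | z i = false} := by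
      ext z; simp
    rw [this]
    exact isClosed_iInter fun i => isClosed_iInter fun _ =>
      isClosed_eq (continuous_apply i) continuous_const
  exact h1.union h2

instance : CompactSpace KK := isCompact_iff_compactSpace.1 isClosed_KK.isCompact

instance : StandardBorelSpace KK := isClosed_KK.measurableSet.standardBorel

/-- the action of the permutations of `Bool`: they permute the two isolated points -/
def act (σ : Equiv.Perm Bool) (z : ℕ → Bool) : ℕ → Bool :=
  fun i => if z 0 = true then z i else if i = 1 then σ (z 1) else z i

theorem act_zero (σ : Equiv.Perm Bool) (z : ℕ → Bool) : act σ z 0 = z 0 := by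
  simp [act]

instance : MulAction (Equiv.Perm Bool) KK where
  smul σ z := ⟨act σ z.1, by
    rcases z.2 with h | h
    · left; rw [act_zero]; exact h
    · by_cases h0 : z.1 0 = true
      · left; rw [act_zero]; exact h0
      · right
        intro i hi
        have : i ≠ 1 := by omega
        simp [act, h0, this, h i hi]⟩
  one_smul z := by
    apply Subtype.ext
    funext i
    show act 1 z.1 i = z.1 i
    by_cases h0 : z.1 0 = true
    · simp [act, h0]
    · by_cases h1 : i = 1
      · subst h1; simp [act]
      · simp [act, h1]
  mul_smul σ τ z := by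
    apply Subtype.ext
    funext i
    show act (σ * τ) z.1 i = act σ (act τ z.1) i
    by_cases h0 : z.1 0 = true
    · simp [act, h0]
    · by_cases h1 : i = 1
      · subst h1; simp [act, h0]
      · simp [act, h1]

theorem smul_val (σ : Equiv.Perm Bool) (z : KK) : (σ • z).1 = act σ z.1 := rfl

instance : ContinuousConstSMul (Equiv.Perm Bool) KK where
  continuous_const_smul σ := by
    have h : Continuous (act σ) := by
      refine continuous_pi fun i => ?_
      have : (fun z : ℕ → Bool => act σ z i) =
          (fun p : Bool × Bool × Bool => if p.1 = true then p.2.1 else if i = 1 then σ p.2.2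
            else p.2.1) ∘ fun z => (z 0, z i, z 1) := by
        funext z; simp [act]
      rw [this]
      exact continuous_of_discreteTopology.comp
        ((continuous_apply 0).prodMk ((continuous_apply i).prodMk (continuous_apply 1)))
    exact (h.comp continuous_subtype_val).subtype_mk _

/-- the orbit equivalence relation -/
def EE : Setoid KK := MulAction.orbitRel (Equiv.Perm Bool) KK

theorem EE_iff (x y : KK) : EE x y ↔ ∃ σ : Equiv.Perm Bool, σ • x = y := by
  constructor
  · intro h
    obtain ⟨σ, hσ⟩ := MulAction.orbitRel_apply.1 (EE.symm h)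
    exact ⟨σ, hσ⟩
  · rintro ⟨σ, hσ⟩
    exact EE.symm (MulAction.orbitRel_apply.2 ⟨σ, hσ⟩)

theorem cber_EE : CBER EE where
  borel := by
    have : {p : KK × KK | EE p.1 p.2} = ⋃ σ : Equiv.Perm Bool, {p | σ • p.1 = p.2} := by
      ext p
      simp only [mem_iUnion]
      exact EE_iff p.1 p.2
    rw [this]
    refine MeasurableSet.iUnion fun σ => ?_
    exact measurableSet_eq_fun ((continuous_const_smul σ).measurable.comp measurable_fst)
      measurable_snd
  countable x := by
    have : {y | EE x y} = range fun σ : Equiv.Perm Bool => σ • x := by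
      ext y
      exact EE_iff x y
    rw [this]
    exact countable_range _

theorem realizes_EE : CompactRealization EE := by
  refine ⟨KK, inferInstance, inferInstance, inferInstance, Equiv.Perm Bool, inferInstance,
    inferInstance, inferInstance, inferInstance, id, ?_, Function.bijective_id, EE_iff⟩
  have : (inferInstance : MeasurableSpace KK) = borel KK := BorelSpace.measurable_eq
  rw [← this]
  exact measurable_id

theorem uncountable_KK : Uncountable KK := by
  have hinj : Function.Injective (fun s : Set ℕ => (⟨fun i => by
      classical exact decide (i = 0 ∨ i - 1 ∈ s), by left; simp⟩ : KK)) := by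
    intro s t h
    ext i
    have := congrFun (congrArg Subtype.val h) (i + 1)
    simpa using this
  rw [← not_countable_iff]
  intro hc
  have : Countable (Set ℕ) := @Function.Injective.countable _ KK hc _ hinj
  obtain ⟨e, he⟩ := exists_injective_nat (Set ℕ)
  exact Function.cantor_injective e he

theorem class_of_true {x y : KK} (hx : x.1 0 = true) (h : EE x y) : y = x := by
  obtain ⟨σ, rfl⟩ := (EE_iff x y).1 h
  apply Subtype.ext
  funext i
  rw [smul_val]
  simp [act, hx]

/-- the two isolated points -/
def pt (b : Bool) : KK := ⟨fun i => if i = 1 then b else false, by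
  right
  intro i hi
  have : i ≠ 1 := by omega
  simp [this]⟩

theorem eq_pt {x : KK} (hx : x.1 0 = false) : x = pt (x.1 1) := by
  apply Subtype.ext
  funext i
  rcases x.2 with h | h
  · rw [hx] at h; exact absurd h (by simp)
  · show x.1 i = if i = 1 then x.1 1 else false
    by_cases h1 : i = 1
    · subst h1; simp
    · rw [if_neg h1]
      by_cases h0 : i = 0
      · rw [h0]; exact hx
      · exact h i (by omega)

theorem pt_rel (b c : Bool) : EE (pt b) (pt c) := by
  rw [EE_iff]
  refine ⟨Equiv.swap b c, ?_⟩
  apply Subtype.ext
  funext i
  rw [smul_val]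
  by_cases h1 : i = 1
  · subst h1; simp [act, pt]
  · simp [act, pt, h1]

theorem class_pt (b : Bool) : {y | EE (pt b) y} = {pt true, pt false} := by
  ext y
  constructor
  · intro h
    have h0 : y.1 0 = false := by
      by_contra hcon
      have h1 : y.1 0 = true := by simpa using hcon
      have := class_of_true h1 (EE.symm h)
      have h2 := congrArg (fun z : KK => z.1 0) this
      simp [pt, h1] at h2
    rw [eq_pt h0]
    cases y.1 1 <;> simp
  · rintro (rfl | rfl)
    · exact pt_rel _ _
    · exact pt_rel _ _

theorem pt_ne : pt true ≠ pt false := by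
  intro h
  have := congrArg (fun z : KK => z.1 1) h
  simp [pt] at this

theorem big_EE : Big EE 2 = {pt true, pt false} := by
  ext x
  constructor
  · intro h
    have h0 : x.1 0 = false := by
      by_contra hcon
      have h1 : x.1 0 = true := by simpa using hcon
      have h2 : {y | EE x y} ⊆ {x} := fun y hy => class_of_true h1 hy
      have h3 := (show ((2 : ℕ) : ℕ∞) ≤ {y | EE x y}.encard from h).trans (encard_le_encard h2)
      rw [encard_singleton] at h3
      exact absurd h3 (by decide)
    rw [eq_pt h0]
    cases x.1 1 <;> simp
  · intro h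
    have : ∃ b, x = pt b := by
      rcases h with rfl | rfl
      · exact ⟨_, rfl⟩
      · exact ⟨_, rfl⟩
    obtain ⟨b, rfl⟩ := this
    show ((2 : ℕ) : ℕ∞) ≤ _
    rw [class_pt, encard_pair pt_ne]
    rfl

theorem not_cantor_EE : ¬ Realizes EE (ℕ → Bool) := by
  intro h
  refine big_uncountable h 2 ⟨pt true, ?_⟩ ?_
  · rw [big_EE]; simp
  · rw [big_EE]; exact (Set.toFinite _).countable

end Pool.Agent.Q221.CE
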