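import Pool.Agent.Q221.CBER.Defs

set_option autoImplicit false

/-!
# Absorbing countably many infinite classes
-/

open Set Topology TopologicalSpace

namespace Pool.Agent.Q221.CE

/-- If all classes of `r` are countably infinite and `P` is an uncountable invariant set with
countable complement then there is a bijection `ψ` onto `P` which preserves the classes and moves only
countably many points. -/
theorem hotel {α : Type} (r : Setoid α) (hc : ∀ x, {y | r x y}.Countable)
    (hi : ∀ x, {y | r x y}.Infinite) (P : Set α) (hP : ∀ x y, r x y → x ∈ P → y ∈ P)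
    (hPc : Pᶜ.Countable) (hPu : ¬ P.Countable) :
    ∃ (ψ : α → α) (D : Set α), Function.Injective ψ ∧ range ψ = P ∧ D.Countable ∧
      (∀ x, x ∉ D → ψ x = x) ∧ ∀ x y, r x y ↔ r (ψ x) (ψ y) := by
  classical
  let Q := Quotient r
  -- classes are countably infinite
  have hcls : ∀ q : Q, Nonempty ({x : α // Quotient.mk r x = q} ≃ ℕ) := by
    intro q
    induction q using Quotient.inductionOn with
    | h x =>
      have h1 : {y : α | Quotient.mk r y = Quotient.mk r x} = {y | r x y} := by
        ext y
        exact ⟨fun h => r.symm (Quotient.exact h), fun h => Quotient.sound (r.symm h)⟩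
      have h2 : Countable {y : α // Quotient.mk r y = Quotient.mk r x} := by
        have := (hc x)
        rw [← h1] at this
        exact this.to_subtype
      have h3 : Infinite {y : α // Quotient.mk r y = Quotient.mk r x} := by
        have := (hi x)
        rw [← h1] at this
        exact this.to_subtype
      exact nonempty_equiv_of_countable
  let e : ∀ q : Q, {x : α // Quotient.mk r x = q} ≃ ℕ := fun q => (hcls q).some
  let θ : α ≃ Q × ℕ := (Equiv.sigmaFiberEquiv (Quotient.mk r)).symm.trans
    ((Equiv.sigmaCongrRight e).trans (Equiv.sigmaEquivProd Q ℕ))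
  have hθ : ∀ x, (θ x).1 = Quotient.mk r x := fun x => rfl
  have hθs : ∀ p : Q × ℕ, Quotient.mk r (θ.symm p) = p.1 := by
    intro p
    rw [← hθ, Equiv.apply_symm_apply]
  let PQ : Set Q := Quotient.mk r '' P
  have hmem : ∀ x, Quotient.mk r x ∈ PQ ↔ x ∈ P := by
    intro x
    constructor
    · rintro ⟨y, hy, h⟩
      exact hP y x (Quotient.exact h) hy
    · exact fun h => ⟨x, h, rfl⟩
  have hPQc : PQᶜ.Countable := by
    refine (hPc.image (Quotient.mk r)).mono ?_
    intro q
    induction q using Quotient.inductionOn with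
    | h x =>
      intro h
      exact ⟨x, fun hx => h ((hmem x).2 hx), rfl⟩
  have hPQi : PQ.Infinite := by
    intro hfin
    apply hPu
    have : P ⊆ ⋃ q ∈ PQ, {x | Quotient.mk r x = q} := by
      intro x hx
      simp only [mem_iUnion]
      exact ⟨Quotient.mk r x, (hmem x).2 hx, rfl⟩
    refine (hfin.countable.biUnion fun q _ => ?_).mono this
    obtain ⟨f⟩ := hcls q
    exact @Countable.to_set _ _ (f.injective.countable)
  obtain ⟨C, hCP, hCi, hCc⟩ : ∃ C ⊆ PQ, C.Infinite ∧ C.Countable := by
    let f := hPQi.natEmbedding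
    refine ⟨range fun n => (f n).1, ?_, ?_, countable_range _⟩
    · rintro _ ⟨n, rfl⟩; exact (f n).2
    · exact infinite_range_of_injective (Subtype.val_injective.comp f.injective)
  let T : Set Q := PQᶜ ∪ C
  have hTc : T.Countable := hPQc.union hCc
  have hTi : T.Infinite := hCi.mono subset_union_right
  have : Countable T := hTc.to_subtype
  have : Infinite T := hTi.to_subtype
  have : Countable C := hCc.to_subtype
  have : Infinite C := hCi.to_subtype
  obtain ⟨b⟩ : Nonempty (T ≃ C) := nonempty_equiv_of_countable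
  let β : Q → Q := fun q => if h : q ∈ T then (b ⟨q, h⟩).1 else q
  have hβT : ∀ q (h : q ∈ T), β q = (b ⟨q, h⟩).1 := fun q h => dif_pos h
  have hβn : ∀ q, q ∉ T → β q = q := fun q h => dif_neg h
  have hCT : C ⊆ T := subset_union_right
  have hβi : Function.Injective β := by
    intro p q h
    by_cases hp : p ∈ T <;> by_cases hq : q ∈ T
    · rw [hβT p hp, hβT q hq] at h
      have := b.injective (Subtype.ext h)
      exact congrArg Subtype.val this
    · rw [hβT p hp, hβn q hq] at h
      exact absurd (hCT (h ▸ (b ⟨p, hp⟩).2)) hq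
    · rw [hβn p hp, hβT q hq] at h
      exact absurd (hCT (h ▸ (b ⟨q, hq⟩).2)) hp
    · rwa [hβn p hp, hβn q hq] at h
  have hβP : ∀ q, β q ∈ PQ := by
    intro q
    by_cases hq : q ∈ T
    · rw [hβT q hq]; exact hCP (b ⟨q, hq⟩).2
    · rw [hβn q hq]
      by_contra h
      exact hq (Or.inl h)
  have hβs : ∀ q ∈ PQ, ∃ p, β p = q := by
    intro q hq
    by_cases hqC : q ∈ C
    · refine ⟨(b.symm ⟨q, hqC⟩).1, ?_⟩
      rw [hβT _ (b.symm ⟨q, hqC⟩).2]
      simp
    · refine ⟨q, hβn q ?_⟩
      rintro (h | h)
      · exact h hq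
      · exact hqC h
  let ψ : α → α := fun x => θ.symm (β (θ x).1, (θ x).2)
  have hψq : ∀ x, Quotient.mk r (ψ x) = β (Quotient.mk r x) := fun x => hθs _
  refine ⟨ψ, {x | Quotient.mk r x ∈ T}, ?_, ?_, ?_, ?_, ?_⟩
  · intro x y h
    have h1 := θ.symm.injective h
    have h2 := hβi (Prod.mk.inj h1).1
    exact θ.injective (Prod.ext h2 (Prod.mk.inj h1).2)
  · ext x
    constructor
    · rintro ⟨y, rfl⟩
      rw [← hmem, hψq]
      exact hβP _
    · intro hx
      obtain ⟨p, hp⟩ := hβs _ ((hmem x).2 hx)
      refine ⟨θ.symm (p, (θ x).2), ?_⟩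
      show θ.symm (β (θ (θ.symm (p, (θ x).2))).1, (θ (θ.symm (p, (θ x).2))).2) = x
      rw [Equiv.apply_symm_apply]
      show θ.symm (β p, (θ x).2) = x
      rw [hp, ← hθ]
      exact θ.symm_apply_apply x
  · have : {x | Quotient.mk r x ∈ T} = ⋃ q ∈ T, {x | Quotient.mk r x = q} := by
      ext x; simp
    rw [this]
    refine hTc.biUnion fun q _ => ?_
    obtain ⟨f⟩ := hcls q
    exact @Countable.to_set _ _ (f.injective.countable)
  · intro x hx
    show θ.symm (β (θ x).1, (θ x).2) = x
    rw [hθ, hβn _ hx, ← hθ]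
    exact θ.symm_apply_apply x
  · intro x y
    constructor
    · intro h
      have : Quotient.mk r (ψ x) = Quotient.mk r (ψ y) := by
        rw [hψq, hψq, Quotient.sound h]
      exact Quotient.exact this
    · intro h
      have h1 : Quotient.mk r (ψ x) = Quotient.mk r (ψ y) := Quotient.sound h
      rw [hψq, hψq] at h1
      exact Quotient.exact (hβi h1)

end Pool.Agent.Q221.CE
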