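import Pool.Agent.Q221.CBER.Hotel

set_option autoImplicit false

/-!
# Aperiodic relations realized on totally disconnected compact spaces
-/

open Set Topology TopologicalSpace

namespace Pool.Agent.Q221.CE

/-- A compact metrizable totally disconnected space injects continuously into the Cantor space. -/
theorem exists_inj (K : Type) [TopologicalSpace K] [CompactSpace K] [MetrizableSpace K]
    [TotallyDisconnectedSpace K] : ∃ e : K → (ℕ → Bool), Continuous e ∧ Function.Injective e := by
  classical
  have : SecondCountableTopology K := by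
    letI := metrizableSpaceMetric K
    infer_instance
  have hcl : Countable (Clopens K) := Clopens.countable_iff_secondCountable.2 this
  have : Nonempty (Clopens K) := ⟨⊥⟩
  obtain ⟨c, hc⟩ := exists_surjective_nat (Clopens K)
  refine ⟨fun x n => decide (x ∈ c n), ?_, ?_⟩
  · refine continuous_pi fun n => ?_
    have h : (fun x => decide (x ∈ c n)) = fun x => decide (x ∈ (c n : Set K)) := rfl
    rw [h]
    rw [continuous_discrete_rng]
    intro b
    have h1 : IsClopen (c n : Set K) := (c n).isClopen
    cases b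
    · have : (fun x => decide (x ∈ (c n : Set K))) ⁻¹' {false} = (c n : Set K)ᶜ := by
        ext x; simp
      rw [this]; exact h1.compl.isOpen
    · have : (fun x => decide (x ∈ (c n : Set K))) ⁻¹' {true} = (c n : Set K) := by
        ext x; simp
      rw [this]; exact h1.isOpen
  · intro x y h
    by_contra hne
    obtain ⟨U, hU, hxU, hyU⟩ := exists_isClopen_of_totally_separated hne
    obtain ⟨n, hn⟩ := hc ⟨U, hU⟩
    have h1 := congrFun h n
    simp only [decide_eq_decide, hn] at h1
    exact hyU (h1.1 hxU)

/-- An aperiodic relation on an uncountable space which is realized on a totally disconnected compact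
metrizable space is realized on the Cantor space. -/
theorem cantor_of_zero {X : Type} [MeasurableSpace X] [Uncountable X] {E : Setoid X}
    (hE : CBER E) (hinf : ∀ x, {y | E x y}.Infinite) (K : Type) [TopologicalSpace K]
    [CompactSpace K] [MetrizableSpace K] [TotallyDisconnectedSpace K] (h : Realizes E K) :
    Realizes E (ℕ → Bool) := by
  classical
  obtain ⟨Γ, _, _, _, _, f, hfm, hf, hfE⟩ := h
  have : SecondCountableTopology K := by
    letI := metrizableSpaceMetric K
    infer_instance
  letI mK : MeasurableSpace K := borel K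
  haveI : BorelSpace K := ⟨rfl⟩
  have hKu : ¬ (univ : Set K).Countable := by
    intro hc
    have h1 : Countable K := Set.countable_univ_iff.1 hc
    have h2 : Countable X := hf.1.countable
    exact not_countable (α := X) h2
  -- the condensation points
  let P : Set K := {x | ∀ U : Set K, IsOpen U → x ∈ U → ¬ U.Countable}
  have hPc : Pᶜ.Countable := by
    have : Pᶜ ⊆ ⋃ U ∈ {U ∈ countableBasis K | U.Countable}, U := by
      intro x hx
      simp only [P, mem_compl_iff, mem_ofPred_eq, not_forall, not_not] at hx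
      obtain ⟨U, hU, hxU, hUc⟩ := hx
      obtain ⟨V, hV, hxV, hVU⟩ := (isBasis_countableBasis K).exists_subset_of_mem_open hxU hU
      simp only [mem_iUnion]
      exact ⟨V, ⟨hV, hUc.mono hVU⟩, hxV⟩
    refine Set.Countable.mono this (Set.Countable.biUnion ?_ fun U hU => hU.2)
    exact (countable_countableBasis K).mono fun U hU => hU.1
  have hPcl : IsClosed P := by
    rw [← isOpen_compl_iff, isOpen_iff_mem_nhds]
    intro x hx
    simp only [P, mem_compl_iff, mem_ofPred_eq, not_forall, not_not] at hx
    obtain ⟨U, hU, hxU, hUc⟩ := hx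
    refine Filter.mem_of_superset (hU.mem_nhds hxU) fun y hy hyP => hyP U hU hy hUc
  have hPu : ¬ P.Countable := by
    intro hc
    apply hKu
    rw [← union_compl_self P]
    exact hc.union hPc
  have hPinv : ∀ (γ : Γ) (x : K), x ∈ P → γ • x ∈ P := by
    intro γ x hx U hU hxU hUc
    refine hx ((fun y => γ • y) ⁻¹' U) (hU.preimage (continuous_const_smul γ)) hxU ?_
    exact hUc.preimage (MulAction.injective γ)
  -- the orbit equivalence relation
  let r : Setoid K := MulAction.orbitRel Γ K
  have hr : ∀ x y, r x y ↔ ∃ γ : Γ, γ • x = y := by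
    intro x y
    constructor
    · intro h
      obtain ⟨γ, hγ⟩ := MulAction.orbitRel_apply.1 (r.symm h)
      exact ⟨γ, hγ⟩
    · rintro ⟨γ, hγ⟩
      exact r.symm (MulAction.orbitRel_apply.2 ⟨γ, hγ⟩)
  have hrf : ∀ x y, E x y ↔ r (f x) (f y) := fun x y => (hfE x y).trans (hr _ _).symm
  obtain ⟨ψ, D, hψi, hψr, hDc, hψD, hψE⟩ := hotel r
    (by
      intro x
      have : {y | r x y} = range fun γ : Γ => γ • x := by
        ext y; exact hr x y
      rw [this]; exact countable_range _)
    (by
      intro x
      obtain ⟨x, rfl⟩ := hf.2 x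
      have : f '' {y | E x y} ⊆ {y | r (f x) y} := by
        rintro _ ⟨y, hy, rfl⟩
        exact (hrf x y).1 hy
      exact ((hinf x).image hf.1.injOn).mono this)
    P
    (by
      intro x y h hx
      obtain ⟨γ, rfl⟩ := (hr x y).1 h
      exact hPinv γ x hx)
    hPc hPu
  -- `P` is a Cantor set
  obtain ⟨e, hec, hei⟩ := exists_inj K
  haveI : CompactSpace P := isCompact_iff_compactSpace.1 hPcl.isCompact
  haveI : Nonempty P := by
    by_contra hcon
    apply hPu
    have : P = ∅ := by
      rw [← Set.not_nonempty_iff_eq_empty, ← Set.nonempty_coe_sort]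
      exact hcon
    rw [this]; exact countable_empty
  obtain ⟨φ⟩ : Nonempty (P ≃ₜ (ℕ → Bool)) := by
    refine H812R3.CantorChar.cantor_char (fun x : P => e x.1) (hec.comp continuous_subtype_val)
      (hei.comp Subtype.val_injective) ?_
    intro z U hU hzU
    obtain ⟨V, hV, rfl⟩ := isOpen_induced_iff.1 hU
    have h1 : ¬ V.Countable := z.2 V hV hzU
    have h2 : ¬ (V ∩ P).Countable := by
      intro hc
      apply h1
      refine (hc.union hPc).mono fun y hy => ?_
      by_cases hyP : y ∈ P
      · exact Or.inl ⟨hy, hyP⟩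
      · exact Or.inr hyP
    by_contra hcon
    push Not at hcon
    apply h2
    refine (Set.countable_singleton z.1).mono fun y hy => ?_
    exact congrArg Subtype.val (hcon ⟨y, hy.2⟩ hy.1)
  -- the action on `P`, transported to the Cantor space
  let A : MulAction Γ (ℕ → Bool) :=
    { smul := fun γ z => φ ⟨γ • (φ.symm z).1, hPinv γ _ (φ.symm z).2⟩
      one_smul := by
        intro z
        show φ ⟨(1 : Γ) • (φ.symm z).1, _⟩ = z
        have : (⟨(1 : Γ) • (φ.symm z).1, hPinv 1 _ (φ.symm z).2⟩ : P) = φ.symm z :=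
          Subtype.ext (one_smul _ _)
        rw [this]; exact φ.apply_symm_apply z
      mul_smul := by
        intro γ δ z
        show φ ⟨(γ * δ) • (φ.symm z).1, _⟩ =
          φ ⟨γ • (φ.symm (φ ⟨δ • (φ.symm z).1, _⟩)).1, _⟩
        congr 1
        apply Subtype.ext
        show (γ * δ) • (φ.symm z).1 = γ • (φ.symm (φ ⟨δ • (φ.symm z).1, _⟩)).1
        rw [φ.symm_apply_apply, mul_smul] }
  have hA : ∀ (γ : Γ) (z : ℕ → Bool), γ • z = φ ⟨γ • (φ.symm z).1, hPinv γ _ (φ.symm z).2⟩ :=
    fun γ z => rfl
  have hcont : @ContinuousConstSMul Γ (ℕ → Bool) _ A.toSMul := by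
    refine @ContinuousConstSMul.mk _ _ _ A.toSMul fun γ => ?_
    exact φ.continuous.comp (((continuous_const_smul γ).comp
      (continuous_subtype_val.comp φ.symm.continuous)).subtype_mk _)
  have hψP : ∀ x, ψ x ∈ P := fun x => hψr ▸ mem_range_self x
  let g : K → (ℕ → Bool) := fun x => φ ⟨ψ x, hψP x⟩
  have hgm : @Measurable K (ℕ → Bool) mK (borel (ℕ → Bool)) g := by
    have hb : (borel (ℕ → Bool)) = (inferInstance : MeasurableSpace (ℕ → Bool)) :=
      BorelSpace.measurable_eq.symm
    rw [hb]
    intro S hS
    have hDm : MeasurableSet D := hDc.measurableSet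
    have h1 : g ⁻¹' S = (g ⁻¹' S ∩ D) ∪ (Subtype.val '' (φ ⁻¹' S) ∩ Dᶜ) := by
      ext x
      by_cases hx : x ∈ D
      · simp [hx]
      · have hxP : x ∈ P := by rw [← hψD x hx]; exact hψP x
        have h2 : (⟨ψ x, hψP x⟩ : P) = ⟨x, hxP⟩ := Subtype.ext (hψD x hx)
        constructor
        · intro h
          refine Or.inr ⟨⟨⟨x, hxP⟩, ?_, rfl⟩, hx⟩
          show φ ⟨x, hxP⟩ ∈ S
          rw [← h2]; exact h
        · rintro (h | ⟨⟨y, hy, hyx⟩, -⟩)
          · exact h.1
          · show φ ⟨ψ x, hψP x⟩ ∈ S
            rw [h2]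
            have : y = ⟨x, hxP⟩ := Subtype.ext hyx
            rw [← this]; exact hy
    rw [h1]
    refine ((hDc.mono inter_subset_right).measurableSet).union (MeasurableSet.inter ?_ hDm.compl)
    exact hPcl.measurableSet.subtype_image (φ.measurable hS)
  refine ⟨Γ, inferInstance, inferInstance, A, hcont, g ∘ f, ?_, ?_, ?_⟩
  · exact @Measurable.comp _ _ _ _ mK (borel (ℕ → Bool)) _ _ hgm hfm
  · refine Function.Bijective.comp ⟨?_, ?_⟩ hf
    · intro x y h
      have := φ.injective h
      exact hψi (congrArg Subtype.val this)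
    · intro z
      have : (φ.symm z).1 ∈ range ψ := by rw [hψr]; exact (φ.symm z).2
      obtain ⟨x, hx⟩ := this
      refine ⟨x, ?_⟩
      show φ ⟨ψ x, _⟩ = z
      have h2 : (⟨ψ x, hψP x⟩ : P) = φ.symm z := Subtype.ext hx
      rw [h2]; exact φ.apply_symm_apply z
  · intro x y
    rw [hrf, hψE, hr]
    refine exists_congr fun γ => ?_
    show _ ↔ φ ⟨γ • (φ.symm (φ ⟨ψ (f x), _⟩)).1, _⟩ = φ ⟨ψ (f y), _⟩
    rw [φ.injective.eq_iff, Subtype.mk.injEq, φ.symm_apply_apply]

end Pool.Agent.Q221.CE
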